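import Pool.Agent.Results.MP_da56a7_lc.MeasureMaximal
import Pool.Agent.Work.MP_da56a7_lc.B.All

set_option autoImplicit false

open MeasureTheory Set

namespace Pool.Agent.Results.MP_da56a7_lc.AlephOneOrBoundAlephTwo

open Pool.Agent.Results.MP_da56a7_lc.MeasureMaximal

/-- The hypotheses used in the proof. -/
lemma tot {X : Type} [MeasurableSpace X] {mu : Measure X} (h : IsRVM X mu) :
    Pool.Agent.Work.MP_da56a7_lc.B.Tot X mu where
  allM := h.allMeasurable
  prob := ⟨h.total⟩
  pts := h.points
  unc := h.uncountable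
  add := fun _ N hi hN => null_iUnion h N hi hN

/-- **Result.** Let `X` be real-valued measurable of cardinality at most the continuum. Then there
is an infinite maximal almost disjoint family of cardinality `ℵ₁ < |X|`, or every family of at most
`ℵ₁` functions from the naturals to the naturals is bounded for eventual domination. -/
theorem result : ∀ (X : Type) [MeasurableSpace X] (mu : Measure X), IsRVM X mu →
    Cardinal.mk X ≤ Cardinal.continuum →
    (∃ A : Set (Set ℕ), IsAD A ∧ MeasureMaximal.IsMax A ∧ Cardinal.mk A = Cardinal.aleph 1 ∧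
      Cardinal.mk A < Cardinal.mk X) ∨
    ∀ F : Set (ℕ → ℕ), Cardinal.mk F ≤ Cardinal.aleph 1 →
      ∃ g : ℕ → ℕ, ∀ f ∈ F, ∀ᶠ n in Filter.atTop, f n ≤ g n := by
  intro X _ mu h hc
  exact Pool.Agent.Work.MP_da56a7_lc.B.main X mu (tot h) hc

end Pool.Agent.Results.MP_da56a7_lc.AlephOneOrBoundAlephTwo
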