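import Pool.Agent.Results.MP_da56a7_lc.MeasureMaximal
import Pool.Agent.Work.MP_da56a7_lc.C.All

set_option autoImplicit false

open MeasureTheory Set Filter

namespace Pool.Agent.Results.MP_da56a7_lc.BorelCover

open Pool.Agent.Results.MP_da56a7_lc.MeasureMaximal

/-- Dominating family of functions (for eventual domination). -/
def IsDominating (D : Set (ℕ → ℕ)) : Prop :=
  ∀ f : ℕ → ℕ, ∃ g ∈ D, ∀ᶠ n in atTop, f n ≤ g n

/-- The countable subsets of a set of cardinality `ν` have a cofinal family of cardinality at most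
`ν`. -/
def HasCofinalCountable (ν : Cardinal.{0}) : Prop :=
  ∃ F : ν.ord.ToType → Set ν.ord.ToType, (∀ t, (F t).Countable) ∧
    ∀ s : Set ν.ord.ToType, s.Countable → ∃ t, s ⊆ F t

/-- **Result.** Let `X` be real-valued measurable of cardinality `κ ≤ 𝔠` and let `ν < κ`. If some
dominating family has at most `ν` elements, the countable subsets of `ν` have a cofinal family of
size `ν`, and at most `ν` Borel sets cover the Cantor space and meet some set of size `ν` in
countable sets, then there is an infinite maximal almost disjoint family of size at most `ν`. -/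
theorem result : ∀ (X : Type) [MeasurableSpace X] (mu : Measure X), IsRVM X mu →
    Cardinal.mk X ≤ Cardinal.continuum →
    ∀ ν : Cardinal.{0}, ν < Cardinal.mk X →
      (∃ D : Set (ℕ → ℕ), IsDominating D ∧ Cardinal.mk D ≤ ν) →
      HasCofinalCountable ν →
      (∃ (B : Set (Set (ℕ → Bool))) (S : Set (ℕ → Bool)), Cardinal.mk B ≤ ν ∧
        (∀ b ∈ B, MeasurableSet b) ∧ ⋃₀ B = univ ∧ Cardinal.mk S = ν ∧
        ∀ b ∈ B, (b ∩ S).Countable) →
      ∃ A : Set (Set ℕ), IsAD A ∧ MeasureMaximal.IsMax A ∧ Cardinal.mk A ≤ ν := by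
  intro X _ mu h hc ν hν h2 h1 h3
  have ht : Pool.Agent.Work.MP_da56a7_lc.B.Tot X mu :=
    ⟨h.allMeasurable, ⟨h.total⟩, h.points, h.uncountable, fun _ N hi hN => null_iUnion h N hi hN⟩
  exact Pool.Agent.Work.MP_da56a7_lc.C.main.1 X mu ht hc ν hν h1 h2 h3

end Pool.Agent.Results.MP_da56a7_lc.BorelCover
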