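import Pool.Agent.Results.MP_da56a7_lc.MeasureMaximal
import Pool.Agent.Work.MP_da56a7_lc.C.All

set_option autoImplicit false

open MeasureTheory Set Filter

namespace Pool.Agent.Results.MP_da56a7_lc.BoundEqDominating

open Pool.Agent.Results.MP_da56a7_lc.MeasureMaximal

/-- Borel preorder of the Cantor space. -/
structure IsBorelPreorder (r : (ℕ → Bool) → (ℕ → Bool) → Prop) : Prop where
  refl : ∀ x, r x x
  trans : ∀ x y z, r x y → r y z → r x z
  borel : MeasurableSet {p : (ℕ → Bool) × (ℕ → Bool) | r p.1 p.2}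

/-- `c` is a chain length: some Borel preorder of the Cantor space has a strictly increasing
sequence of length `c` (indexed by the initial ordinal of `c`). -/
def IsChainLength (c : Cardinal.{0}) : Prop :=
  ∃ r : (ℕ → Bool) → (ℕ → Bool) → Prop, IsBorelPreorder r ∧
    ∃ s : c.ord.ToType → (ℕ → Bool), ∀ i j, i < j → r (s i) (s j) ∧ ¬ r (s j) (s i)

/-- Dominating family of functions (for eventual domination). -/
def IsDominating (D : Set (ℕ → ℕ)) : Prop :=
  ∀ f : ℕ → ℕ, ∃ g ∈ D, ∀ᶠ n in atTop, f n ≤ g n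

/-- The countable subsets of a set of cardinality `ν` have a cofinal family of cardinality at most
`ν`. -/
def HasCofinalCountable (ν : Cardinal.{0}) : Prop :=
  ∃ F : ν.ord.ToType → Set ν.ord.ToType, (∀ t, (F t).Countable) ∧
    ∀ s : Set ν.ord.ToType, s.Countable → ∃ t, s ⊆ F t

/-- A scale: a dominating family of functions, well ordered by eventual domination (`𝔟 = 𝔡`). -/
def HasScale : Prop := ∃ (J : Type) (_ : LinearOrder J) (_ : WellFoundedLT J) (g : J → ℕ → ℕ),
  (∀ i j, i < j → (∀ᶠ n in atTop, g i n ≤ g j n) ∧ ¬ ∀ᶠ n in atTop, g j n ≤ g i n) ∧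
  IsDominating (range g)

/-- **Result.** Let `X` be real-valued measurable of cardinality `κ ≤ 𝔠`. If there is a scale
(`𝔟 = 𝔡`), or a dominating family whose size is a chain length, and if all chain lengths are less
than `ℵ_ω`, or every `ν < κ` of uncountable cofinality whose predecessors are chain lengths
satisfies `cof([ν]^ω) = ν`, then there is an infinite maximal almost disjoint family of size less
than `κ`. -/
theorem result : ∀ (X : Type) [MeasurableSpace X] (mu : Measure X), IsRVM X mu →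
    Cardinal.mk X ≤ Cardinal.continuum →
    (HasScale ∨ ∃ D : Set (ℕ → ℕ), IsDominating D ∧ IsChainLength (Cardinal.mk D)) →
    ((∀ c, IsChainLength c → c < Cardinal.aleph Ordinal.omega0) ∨
      ∀ ν : Cardinal.{0}, ν < Cardinal.mk X → Cardinal.aleph0 < ν.ord.cof →
        (∀ c, c < ν → IsChainLength c) → HasCofinalCountable ν) →
    ∃ A : Set (Set ℕ), IsAD A ∧ MeasureMaximal.IsMax A ∧ Cardinal.mk A < Cardinal.mk X := by
  obtain ⟨-, hB, hS, hC⟩ := Pool.Agent.Work.MP_da56a7_lc.C.main
  have hW : ∀ c, IsChainLength c ↔ Pool.Agent.Work.MP_da56a7_lc.C.W c := by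
    intro c
    constructor
    · rintro ⟨r, hr, s, hs⟩
      exact ⟨r, ⟨hr.refl, hr.trans, hr.borel⟩, s, hs⟩
    · rintro ⟨r, hr, s, hs⟩
      exact ⟨r, ⟨hr.refl, hr.trans, hr.meas⟩, s, hs⟩
  intro X _ mu h hc h2 h1
  have ht : Pool.Agent.Work.MP_da56a7_lc.B.Tot X mu :=
    ⟨h.allMeasurable, ⟨h.total⟩, h.points, h.uncountable, fun _ N hi hN => null_iUnion h N hi hN⟩
  have h3 : ∃ D : Set (ℕ → ℕ), Pool.Agent.Work.MP_da56a7_lc.C.IsDominating D ∧
      Pool.Agent.Work.MP_da56a7_lc.C.W (Cardinal.mk D) := by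
    rcases h2 with h2 | ⟨D, hD, hDW⟩
    · exact hS h2
    · exact ⟨D, hD, (hW _).1 hDW⟩
  refine hB X mu ht hc ?_ h3
  intro ν hν hcof hch
  rcases h1 with h1 | h1
  · exact hC (fun c hcW => h1 c ((hW c).2 hcW)) ν hcof hch
  · exact h1 ν hν hcof (fun c hcν => (hW c).2 (hch c hcν))

end Pool.Agent.Results.MP_da56a7_lc.BoundEqDominating
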