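import Mathlib

set_option autoImplicit false

open MeasureTheory Set ProbabilityTheory unitInterval

namespace Pool.Agent.Results.MP_da56a7_lc.MeasureMaximal

/-- `mu` is a real-valued measurable measure on the set `X`: every subset is measurable,
`X` is uncountable, `mu` is a probability measure vanishing on points and additive on disjoint
families indexed by sets of cardinality smaller than that of `X`. -/
structure IsRVM (X : Type) [MeasurableSpace X] (mu : Measure X) : Prop where
  allMeasurable : ∀ s : Set X, MeasurableSet s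
  uncountable : Cardinal.aleph0 < Cardinal.mk X
  total : mu Set.univ = 1
  points : ∀ x : X, mu {x} = 0
  additive : ∀ (ι : Type) (f : ι → Set X), Cardinal.mk ι < Cardinal.mk X →
    Pairwise (Function.onFun Disjoint f) → mu (⋃ i, f i) = ∑' i, mu (f i)

/-- An infinite almost disjoint family of infinite sets of naturals. -/
def IsAD (A : Set (Set ℕ)) : Prop :=
  A.Infinite ∧ (∀ a ∈ A, a.Infinite) ∧ (∀ a ∈ A, ∀ b ∈ A, a ≠ b → (a ∩ b).Finite)

/-- Maximality: every infinite set of naturals meets a member of `A` in an infinite set. -/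
def IsMax (A : Set (Set ℕ)) : Prop :=
  ∀ s : Set ℕ, s.Infinite → ∃ a ∈ A, (s ∩ a).Infinite

/-- Maximality against measures: for every Borel probability measure on the Cantor space of sets
of naturals which is concentrated on the infinite sets, some member of `A` has an infinite
intersection with a random set with positive probability. -/
def IsMeasureMax (A : Set (Set ℕ)) : Prop :=
  ∀ m : Measure (Set ℕ), IsProbabilityMeasure m → (∀ᵐ s ∂m, s.Infinite) →
    ∃ a ∈ A, m {s : Set ℕ | (s ∩ a).Infinite} ≠ 0

/-- A union of fewer than `|X|` null sets is null. -/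
lemma null_iUnion {X : Type} [MeasurableSpace X] {mu : Measure X} (h : IsRVM X mu)
    {ι : Type} (N : ι → Set X) (hι : Cardinal.mk ι < Cardinal.mk X)
    (hN : ∀ i, mu (N i) = 0) : mu (⋃ i, N i) = 0 := by
  classical
  let r : ι → ι → Prop := WellOrderingRel
  have hwf : WellFounded r := (inferInstance : IsWellOrder ι WellOrderingRel).wf
  let f : ι → Set X := fun i => N i \ ⋃ j, ⋃ (_ : r j i), N j
  have hdis : Pairwise (Function.onFun Disjoint f) := by
    intro i j hij
    rw [Function.onFun, Set.disjoint_left]
    intro x hx hy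
    rcases (trichotomous_of r i j) with h1 | h1 | h1
    · exact hy.2 (mem_iUnion.2 ⟨i, mem_iUnion.2 ⟨h1, hx.1⟩⟩)
    · exact hij h1
    · exact hx.2 (mem_iUnion.2 ⟨j, mem_iUnion.2 ⟨h1, hy.1⟩⟩)
  have hU : (⋃ i, N i) = ⋃ i, f i := by
    apply Subset.antisymm
    · intro x hx
      obtain ⟨i, hi⟩ := mem_iUnion.1 hx
      have hne : {i | x ∈ N i}.Nonempty := ⟨i, hi⟩
      refine mem_iUnion.2 ⟨hwf.min _ hne, hwf.min_mem _ hne, ?_⟩
      intro hx2
      obtain ⟨j, hj⟩ := mem_iUnion.1 hx2
      obtain ⟨hj1, hj2⟩ := mem_iUnion.1 hj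
      exact hwf.not_lt_min _ hj2 hj1
    · exact iUnion_mono fun i => sdiff_subset
  rw [hU, h.additive ι f hι hdis]
  have : ∀ i, mu (f i) = 0 := fun i => measure_mono_null sdiff_subset (hN i)
  simp [this]

/-- The distribution function of an atomless law on the line pushes it to the uniform law. -/
lemma map_cdf_eq {nu : Measure ℝ} [IsProbabilityMeasure nu] (hat : ∀ t, nu {t} = 0) (t : ℝ)
    (ht0 : 0 ≤ t) (ht1 : t ≤ 1) : nu {y | cdf nu y ≤ t} = ENNReal.ofReal t := by
  have hmono : Monotone (cdf nu) := monotone_cdf nu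
  have hcont : Continuous (cdf nu) := by
    rw [continuous_iff_continuousAt]
    intro a
    rw [continuousAt_iff_continuous_left'_right']
    refine ⟨?_, ?_⟩
    · rw [hmono.continuousWithinAt_Iio_iff_leftLim_eq]
      have h1 : (cdf nu).measure {a} = 0 := by rw [measure_cdf]; exact hat a
      rw [StieltjesFunction.measure_singleton, ENNReal.ofReal_eq_zero] at h1
      have h2 := hmono.leftLim_le (le_refl a)
      linarith
    · exact ((cdf nu).right_continuous a).mono Ioi_subset_Ici_self
  rcases eq_or_lt_of_le ht1 with rfl | ht1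
  · have : {y | cdf nu y ≤ 1} = univ := by ext y; simpa using cdf_le_one nu y
    rw [this, measure_univ]; simp
  have hbdd : BddAbove {y | cdf nu y ≤ t} := by
    obtain ⟨b, hb⟩ := ((tendsto_cdf_atTop nu).eventually (lt_mem_nhds ht1)).exists
    refine ⟨b, fun y hy => ?_⟩
    by_contra hlt
    push Not at hlt
    have := hmono hlt.le
    have hy' : cdf nu y ≤ t := hy
    linarith
  rcases Set.eq_empty_or_nonempty {y | cdf nu y ≤ t} with hemp | hne
  · rw [hemp, measure_empty]
    have : t = 0 := by
      by_contra hne
      have hpos : 0 < t := lt_of_le_of_ne ht0 (Ne.symm hne)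
      obtain ⟨b, hb⟩ := ((tendsto_cdf_atBot nu).eventually (gt_mem_nhds hpos)).exists
      have : b ∈ {y | cdf nu y ≤ t} := le_of_lt hb
      rw [hemp] at this
      exact this
    simp [this]
  · set s := sSup {y | cdf nu y ≤ t} with hs
    have hclosed : IsClosed {y | cdf nu y ≤ t} := isClosed_le hcont continuous_const
    have hmem : cdf nu s ≤ t := hclosed.csSup_mem hne hbdd
    have hset : {y | cdf nu y ≤ t} = Iic s := by
      ext y
      constructor
      · intro hy; exact le_csSup hbdd hy
      · intro hy; exact (hmono hy).trans hmem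
    have hge : t ≤ cdf nu s := by
      have hev : ∀ y, s < y → t ≤ cdf nu y := by
        intro y hy
        by_contra hlt
        push Not at hlt
        have : y ∈ {y | cdf nu y ≤ t} := hlt.le
        exact absurd (le_csSup hbdd this) (not_le.2 hy)
      have htend : Filter.Tendsto (cdf nu) (nhdsWithin s (Ioi s)) (nhds (cdf nu s)) :=
        (hcont.tendsto s).mono_left nhdsWithin_le_nhds
      refine ge_of_tendsto htend ?_
      filter_upwards [self_mem_nhdsWithin] with y hy using hev y hy
    rw [hset, ← ofReal_cdf, le_antisymm hmem hge]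

lemma measurableSet_meet (a : Set ℕ) : MeasurableSet {s : Set ℕ | (s ∩ a).Infinite} := by
  have h : {s : Set ℕ | (s ∩ a).Infinite} = ⋂ n : ℕ, ⋃ k : ℕ, {s : Set ℕ | (n < k ∧ k ∈ a) ∧ k ∈ s} := by
    ext s
    simp only [mem_ofPred_eq, mem_iInter, mem_iUnion]
    constructor
    · intro hi n
      obtain ⟨k, hk, hn⟩ := hi.exists_gt n
      exact ⟨k, ⟨hn, hk.2⟩, hk.1⟩
    · intro hi
      refine Set.infinite_of_forall_exists_gt fun n => ?_
      obtain ⟨k, ⟨hn, hk⟩, hs⟩ := hi n
      exact ⟨k, ⟨hs, hk⟩, hn⟩
  rw [h]
  refine MeasurableSet.iInter fun n => MeasurableSet.iUnion fun k => ?_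
  by_cases hc : n < k ∧ k ∈ a
  · have : {s : Set ℕ | (n < k ∧ k ∈ a) ∧ k ∈ s} = {s : Set ℕ | k ∈ s} := by
      ext s; simp [hc]
    rw [this]
    exact measurableSet_setOfPred.2 (measurable_set_mem k)
  · have : {s : Set ℕ | (n < k ∧ k ∈ a) ∧ k ∈ s} = ∅ := by
      ext s; simp only [mem_ofPred_eq, mem_empty_iff_false, iff_false]; exact fun h => hc h.1
    rw [this]; exact MeasurableSet.empty

/-- Every Borel law on the space of sets of naturals is the law of a function on `X`. -/
lemma exists_law {X : Type} [MeasurableSpace X] {mu : Measure X} (h : IsRVM X mu)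
    (hc : Cardinal.mk X ≤ Cardinal.continuum) (m : Measure (Set ℕ)) [IsProbabilityMeasure m] :
    ∃ f : X → Set ℕ, Measurable f ∧ mu.map f = m := by
  have hX : Nonempty (X ↪ ℝ) := by
    rw [← Cardinal.mk_real] at hc
    exact hc
  obtain ⟨e⟩ := hX
  have hmeas : ∀ {Y : Type} [MeasurableSpace Y] (g : X → Y), Measurable g :=
    fun g s _ => h.allMeasurable _
  have hprob : IsProbabilityMeasure mu := ⟨h.total⟩
  have hpe : IsProbabilityMeasure (mu.map e) := Measure.isProbabilityMeasure_map (hmeas e).aemeasurable
  have hat : ∀ t, (mu.map e) {t} = 0 := by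
    intro t
    rw [Measure.map_apply (hmeas e) (measurableSet_singleton t)]
    by_cases hex : ∃ x, e x = t
    · obtain ⟨x, rfl⟩ := hex
      have : e ⁻¹' {e x} = {x} := by
        ext y; simp
      rw [this]; exact h.points x
    · have : e ⁻¹' {t} = ∅ := by
        ext y; simp only [mem_preimage, mem_singleton_iff, mem_empty_iff_false, iff_false]
        exact fun hy => hex ⟨y, hy⟩
      rw [this]; exact measure_empty
  set nu := mu.map e with hnu
  let U : X → I := fun x => ⟨cdf nu (e x), cdf_nonneg nu _, cdf_le_one nu _⟩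
  have hU : mu.map U = (volume : Measure I) := by
    have : IsProbabilityMeasure (mu.map U) := Measure.isProbabilityMeasure_map (hmeas U).aemeasurable
    refine Measure.ext_of_Iic _ _ fun a => ?_
    rw [unitInterval.volume_Iic, Measure.map_apply (hmeas U) measurableSet_Iic,
      ← map_cdf_eq hat a.1 a.2.1 a.2.2, hnu, Measure.map_apply (hmeas e)]
    · rfl
    · exact measurableSet_le (monotone_cdf nu).measurable measurable_const
  have : StandardBorelSpace (Set ℕ) := inferInstanceAs (StandardBorelSpace (ℕ → Prop))
  obtain ⟨g, hg, hgm⟩ := Measure.exists_measurable_map_eq m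
  refine ⟨g ∘ U, hmeas _, ?_⟩
  rw [← Measure.map_map hg (hmeas U), hU, hgm]

/-- Measure-maximality implies maximality. -/
lemma IsMeasureMax.isMax {A : Set (Set ℕ)} (hA : IsMeasureMax A) : IsMax A := by
  intro s hs
  obtain ⟨a, ha, hne⟩ := hA (Measure.dirac s) inferInstance (by
    have hm : MeasurableSet {t : Set ℕ | t.Infinite} := by
      have := measurableSet_meet univ
      simpa using this
    rw [ae_dirac_iff hm]; exact hs)
  refine ⟨a, ha, ?_⟩
  by_contra hcon
  apply hne
  rw [Measure.dirac_apply' _ (measurableSet_meet a)]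
  simp [hcon]

/-- The key equivalence. -/
lemma card_lt_iff {X : Type} [MeasurableSpace X] {mu : Measure X} (h : IsRVM X mu)
    (hc : Cardinal.mk X ≤ Cardinal.continuum) {A : Set (Set ℕ)} (hA : IsAD A) (hM : IsMax A) :
    Cardinal.mk A < Cardinal.mk X ↔ IsMeasureMax A := by
  have hmeas : ∀ {Y : Type} [MeasurableSpace Y] (g : X → Y), Measurable g :=
    fun g s _ => h.allMeasurable _
  have hprob : IsProbabilityMeasure mu := ⟨h.total⟩
  constructor
  · intro hlt m hm hinf
    by_contra hcon
    push Not at hcon
    obtain ⟨f, hf, hfm⟩ := exists_law h hc m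
    have h1 : ∀ a : A, mu {x | (f x ∩ a.1).Infinite} = 0 := by
      intro a
      have := hcon a.1 a.2
      rw [← hfm, Measure.map_apply hf (measurableSet_meet a.1)] at this
      exact this
    have h2 := null_iUnion h (fun a : A => {x | (f x ∩ a.1).Infinite}) hlt h1
    have h3 : mu {x | ¬ (f x).Infinite} = 0 := by
      have hm2 : MeasurableSet {t : Set ℕ | t.Infinite} := by
        have := measurableSet_meet univ
        simpa using this
      rw [← hfm] at hinf
      have := (ae_map_iff hf.aemeasurable hm2).1 hinf
      exact this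
    have h4 : mu ({x | ¬ (f x).Infinite} ∪ ⋃ a : A, {x | (f x ∩ a.1).Infinite}) = 0 :=
      measure_union_null h3 h2
    have h5 : ({x | ¬ (f x).Infinite} ∪ ⋃ a : A, {x | (f x ∩ a.1).Infinite}) ≠ univ := by
      intro heq
      rw [heq, h.total] at h4
      exact one_ne_zero h4
    obtain ⟨x, hx⟩ := (ne_univ_iff_exists_notMem _).1 h5
    simp only [mem_union, mem_ofPred_eq, mem_iUnion, not_or, not_not, not_exists] at hx
    obtain ⟨a, ha, hai⟩ := hM (f x) hx.1
    exact hx.2 ⟨a, ha⟩ hai
  · intro hmm
    by_contra hcon
    push Not at hcon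
    obtain ⟨j⟩ : Nonempty (X ↪ A) := hcon
    let g : X → Set ℕ := fun x => (j x).1
    have hg : Measurable g := hmeas g
    have hp : IsProbabilityMeasure (mu.map g) := Measure.isProbabilityMeasure_map hg.aemeasurable
    obtain ⟨a, ha, hne⟩ := hmm (mu.map g) hp (by
      have hm2 : MeasurableSet {t : Set ℕ | t.Infinite} := by
        have := measurableSet_meet univ
        simpa using this
      rw [ae_map_iff hg.aemeasurable hm2]
      exact Filter.Eventually.of_forall fun x => hA.2.1 _ (j x).2)
    apply hne
    rw [Measure.map_apply hg (measurableSet_meet a)]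
    by_cases hex : ∃ x, g x = a
    · obtain ⟨x, rfl⟩ := hex
      refine measure_mono_null ?_ (h.points x)
      intro y hy
      by_contra hyx
      have hyx' : y ≠ x := hyx
      have : g y ≠ g x := by
        intro hxy
        exact hyx' (j.injective (Subtype.ext hxy))
      exact hy (hA.2.2 _ (j y).2 _ (j x).2 this)
    · have : g ⁻¹' {s : Set ℕ | (s ∩ a).Infinite} = ∅ := by
        ext y
        simp only [mem_preimage, mem_ofPred_eq, mem_empty_iff_false, iff_false]
        intro hy
        exact hy (hA.2.2 _ (j y).2 _ ha (fun h => hex ⟨y, h⟩))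
      rw [this]; exact measure_empty

/-- **Result.** Let `X` be real-valued measurable of cardinality at most the continuum. An infinite
almost disjoint family is maximal and of cardinality smaller than that of `X` if and only if it is
maximal against all Borel probability measures. -/
theorem result : ∀ (X : Type) [MeasurableSpace X] (mu : Measure X), IsRVM X mu →
    Cardinal.mk X ≤ Cardinal.continuum →
    ∀ A : Set (Set ℕ), IsAD A →
      ((IsMax A ∧ Cardinal.mk A < Cardinal.mk X) ↔ IsMeasureMax A) := by
  intro X _ mu h hc A hA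
  constructor
  · rintro ⟨hM, hlt⟩
    exact (card_lt_iff h hc hA hM).1 hlt
  · intro hm
    exact ⟨hm.isMax, (card_lt_iff h hc hA hm.isMax).2 hm⟩

end Pool.Agent.Results.MP_da56a7_lc.MeasureMaximal
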